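import Mathlib

set_option autoImplicit false

namespace Pool.Agent.H475Z.Ap

/-- numerator factor of the row above -/
def pp (n k : ℤ) : ℤ := (n + k) * (n + k + 1)
/-- numerator factor of the middle row -/
def p0 (n k : ℤ) : ℤ := (n + k) * (n + 1 - k) ^ 2
/-- numerator factor of the row below -/
def pm (n k : ℤ) : ℤ := (n + 1 - k) ^ 2 * (n - k) ^ 2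
/-- the summand -/
def E (n k l : ℤ) : ℤ := (n + 1) * (pp n k * pm n l) - n * (p0 n k * p0 n l)
/-- the odd cubic certificate -/
def T (n t x : ℤ) : ℤ :=
  x * (((2 * n - t) * (6 * n + t) * t ^ 2 + 12 * n * t ^ 2 - 2 * t ^ 3 + 12 * n ^ 2)
    - 3 * n * (2 * n + t) * x ^ 2)
/-- the telescoping term -/
def W (n k l : ℤ) : ℤ := l ^ 3 * p0 n k * T n (k + l) (l - k - 1)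
/-- the remainder -/
def G (n k l : ℤ) : ℤ := (k + l) ^ 4 * (E n k l + E n l k) - (W n k l + W n l k)

theorem G_symm (n k l : ℤ) : G n k l = G n l k := by
  unfold G; rw [add_comm k l]; ring

theorem r1 (a c : ℤ) (ha : 0 ≤ a) (hc : 0 ≤ c) :
    0 ≤ G (a + 1 + (c + 0) - 1) a (a + 1) := by
  have h : G (a + 1 + (c + 0) - 1) a (a + 1) =
      (((2:ℤ)*c^(2:ℕ) + (10:ℤ)*c^(3:ℕ) + (14:ℤ)*c^(4:ℕ) + (6:ℤ)*c^(5:ℕ)))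
      + (((26:ℤ)*c^(2:ℕ) + (106:ℤ)*c^(3:ℕ) + (122:ℤ)*c^(4:ℕ) + (42:ℤ)*c^(5:ℕ)))*a^(1:ℕ)
      + (((140:ℤ)*c^(2:ℕ) + (448:ℤ)*c^(3:ℕ) + (396:ℤ)*c^(4:ℕ) + (96:ℤ)*c^(5:ℕ)))*a^(2:ℕ)
      + (((394:ℤ)*c^(2:ℕ) + (914:ℤ)*c^(3:ℕ) + (520:ℤ)*c^(4:ℕ) + (48:ℤ)*c^(5:ℕ)))*a^(3:ℕ)
      + (((580:ℤ)*c^(2:ℕ) + (800:ℤ)*c^(3:ℕ) + (160:ℤ)*c^(4:ℕ)))*a^(4:ℕ)
      + (((352:ℤ)*c^(2:ℕ) + (128:ℤ)*c^(3:ℕ)))*a^(5:ℕ) := by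
    unfold G W T E pp p0 pm; ring
  rw [h]; positivity

theorem r2 (a : ℤ) (_ha : 0 ≤ a) :
    0 ≤ G (a + 0 + 0 - 1) a (a + 0) := by
  have h : G (a + 0 + 0 - 1) a (a + 0) =
      0 := by
    unfold G W T E pp p0 pm; ring
  rw [h]

theorem r3 (a c : ℤ) (ha : 0 ≤ a) (hc : 0 ≤ c) :
    0 ≤ G (a + 0 + (c + 1) - 1) a (a + 0) := by
  have h : G (a + 0 + (c + 1) - 1) a (a + 0) =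
      (((12:ℤ)*c^(3:ℕ) + (24:ℤ)*c^(4:ℕ) + (12:ℤ)*c^(5:ℕ)))*a^(3:ℕ)
      + (((36:ℤ)*c^(2:ℕ) + (72:ℤ)*c^(3:ℕ) + (36:ℤ)*c^(4:ℕ)))*a^(4:ℕ)
      + (((24:ℤ)*c^(1:ℕ) + (48:ℤ)*c^(2:ℕ) + (24:ℤ)*c^(3:ℕ)))*a^(5:ℕ) := by
    unfold G W T E pp p0 pm; ring
  rw [h]; positivity

theorem r4 (a b : ℤ) (ha : 0 ≤ a) (hb : 0 ≤ b) :
    0 ≤ G (a + (b + 1) + 0 - 1) a (a + (b + 1)) := by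
  have h : G (a + (b + 1) + 0 - 1) a (a + (b + 1)) =
      (((5:ℤ))*b^(2:ℕ)
        + ((37:ℤ))*b^(3:ℕ)
        + ((104:ℤ))*b^(4:ℕ)
        + ((139:ℤ))*b^(5:ℕ)
        + ((86:ℤ))*b^(6:ℕ)
        + ((25:ℤ))*b^(7:ℕ)
        + ((32:ℤ))*b^(8:ℕ)
        + ((49:ℤ))*b^(9:ℕ)
        + ((29:ℤ))*b^(10:ℕ)
        + ((6:ℤ))*b^(11:ℕ))
      + (((6:ℤ))*b^(1:ℕ)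
        + ((79:ℤ))*b^(2:ℕ)
        + ((310:ℤ))*b^(3:ℕ)
        + ((531:ℤ))*b^(4:ℕ)
        + ((407:ℤ))*b^(5:ℕ)
        + ((128:ℤ))*b^(6:ℕ)
        + ((132:ℤ))*b^(7:ℕ)
        + ((247:ℤ))*b^(8:ℕ)
        + ((169:ℤ))*b^(9:ℕ)
        + ((39:ℤ))*b^(10:ℕ))*a^(1:ℕ)
      + (((42:ℤ))*b^(1:ℕ)
        + ((299:ℤ))*b^(2:ℕ)
        + ((735:ℤ))*b^(3:ℕ)
        + ((750:ℤ))*b^(4:ℕ)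
        + ((277:ℤ))*b^(5:ℕ)
        + ((177:ℤ))*b^(6:ℕ)
        + ((447:ℤ))*b^(7:ℕ)
        + ((374:ℤ))*b^(8:ℕ)
        + ((99:ℤ))*b^(9:ℕ))*a^(2:ℕ)
      + (((90:ℤ))*b^(1:ℕ)
        + ((421:ℤ))*b^(2:ℕ)
        + ((644:ℤ))*b^(3:ℕ)
        + ((322:ℤ))*b^(4:ℕ)
        + ((91:ℤ))*b^(5:ℕ)
        + ((350:ℤ))*b^(6:ℕ)
        + ((391:ℤ))*b^(7:ℕ)
        + ((123:ℤ))*b^(8:ℕ))*a^(3:ℕ)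
      + (((78:ℤ))*b^(1:ℕ)
        + ((236:ℤ))*b^(2:ℕ)
        + ((188:ℤ))*b^(3:ℕ)
        + ((21:ℤ))*b^(4:ℕ)
        + ((107:ℤ))*b^(5:ℕ)
        + ((191:ℤ))*b^(6:ℕ)
        + ((75:ℤ))*b^(7:ℕ))*a^(4:ℕ)
      + (((24:ℤ))*b^(1:ℕ)
        + ((40:ℤ))*b^(2:ℕ)
        + ((6:ℤ))*b^(3:ℕ)
        + ((6:ℤ))*b^(4:ℕ)
        + ((34:ℤ))*b^(5:ℕ)
        + ((18:ℤ))*b^(6:ℕ))*a^(5:ℕ) := by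
    unfold G W T E pp p0 pm; ring
  rw [h]; positivity

theorem r5 (a : ℤ) (ha : 0 ≤ a) :
    0 ≤ G (a + 2 + 1 - 1) a (a + 2) := by
  have h : G (a + 2 + 1 - 1) a (a + 2) =
      (((576:ℤ)))
      + (((9792:ℤ)))*a^(1:ℕ)
      + (((28512:ℤ)))*a^(2:ℕ)
      + (((31248:ℤ)))*a^(3:ℕ)
      + (((14724:ℤ)))*a^(4:ℕ)
      + (((2520:ℤ)))*a^(5:ℕ) := by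
    unfold G W T E pp p0 pm; ring
  rw [h]; positivity

theorem r6 (a c : ℤ) (ha : 0 ≤ a) (hc : 0 ≤ c) :
    0 ≤ G (a + 2 + (c + 2) - 1) a (a + 2) := by
  have h : G (a + 2 + (c + 2) - 1) a (a + 2) =
      (((1536:ℤ) + (3584:ℤ)*c^(1:ℕ) + (4576:ℤ)*c^(2:ℕ) + (2480:ℤ)*c^(3:ℕ) + (576:ℤ)*c^(4:ℕ) + (48:ℤ)*c^(5:ℕ)))
      + (((83968:ℤ) + (150848:ℤ)*c^(1:ℕ) + (108656:ℤ)*c^(2:ℕ) + (37928:ℤ)*c^(3:ℕ) + (6352:ℤ)*c^(4:ℕ) + (408:ℤ)*c^(5:ℕ)))*a^(1:ℕ)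
      + (((236544:ℤ) + (399104:ℤ)*c^(1:ℕ) + (260488:ℤ)*c^(2:ℕ) + (80468:ℤ)*c^(3:ℕ) + (11688:ℤ)*c^(4:ℕ) + (636:ℤ)*c^(5:ℕ)))*a^(2:ℕ)
      + (((222768:ℤ) + (341480:ℤ)*c^(1:ℕ) + (193600:ℤ)*c^(2:ℕ) + (48620:ℤ)*c^(3:ℕ) + (5136:ℤ)*c^(4:ℕ) + (156:ℤ)*c^(5:ℕ)))*a^(3:ℕ)
      + (((86128:ℤ) + (116408:ℤ)*c^(1:ℕ) + (54176:ℤ)*c^(2:ℕ) + (9704:ℤ)*c^(3:ℕ) + (532:ℤ)*c^(4:ℕ)))*a^(4:ℕ)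
      + (((11808:ℤ) + (13616:ℤ)*c^(1:ℕ) + (4768:ℤ)*c^(2:ℕ) + (440:ℤ)*c^(3:ℕ)))*a^(5:ℕ) := by
    unfold G W T E pp p0 pm; ring
  rw [h]; positivity

theorem r7 (a b c : ℤ) (ha : 0 ≤ a) (hb : 0 ≤ b) (hc : 0 ≤ c) :
    0 ≤ G (a + (b + 3) + (c + 1) - 1) a (a + (b + 3)) := by
  have h : G (a + (b + 3) + (c + 1) - 1) a (a + (b + 3)) =
      (((209952:ℤ) + (174960:ℤ)*c^(1:ℕ) + (79218:ℤ)*c^(2:ℕ) + (30294:ℤ)*c^(3:ℕ) + (7128:ℤ)*c^(4:ℕ) + (648:ℤ)*c^(5:ℕ))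
        + ((1003104:ℤ) + (891324:ℤ)*c^(1:ℕ) + (390177:ℤ)*c^(2:ℕ) + (117126:ℤ)*c^(3:ℕ) + (21060:ℤ)*c^(4:ℕ) + (1539:ℤ)*c^(5:ℕ))*b^(1:ℕ)
        + ((2118474:ℤ) + (1890864:ℤ)*c^(1:ℕ) + (778410:ℤ)*c^(2:ℕ) + (194535:ℤ)*c^(3:ℕ) + (27567:ℤ)*c^(4:ℕ) + (1593:ℤ)*c^(5:ℕ))*b^(2:ℕ)
        + ((2606661:ℤ) + (2235330:ℤ)*c^(1:ℕ) + (840339:ℤ)*c^(2:ℕ) + (176865:ℤ)*c^(3:ℕ) + (19920:ℤ)*c^(4:ℕ) + (888:ℤ)*c^(5:ℕ))*b^(3:ℕ)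
        + ((2080998:ℤ) + (1653417:ℤ)*c^(1:ℕ) + (550761:ℤ)*c^(2:ℕ) + (96258:ℤ)*c^(3:ℕ) + (8454:ℤ)*c^(4:ℕ) + (276:ℤ)*c^(5:ℕ))*b^(4:ℕ)
        + ((1135377:ℤ) + (807780:ℤ)*c^(1:ℕ) + (230301:ℤ)*c^(2:ℕ) + (32298:ℤ)*c^(3:ℕ) + (2100:ℤ)*c^(4:ℕ) + (45:ℤ)*c^(5:ℕ))*b^(5:ℕ)
        + ((433296:ℤ) + (265943:ℤ)*c^(1:ℕ) + (62024:ℤ)*c^(2:ℕ) + (6565:ℤ)*c^(3:ℕ) + (283:ℤ)*c^(4:ℕ) + (3:ℤ)*c^(5:ℕ))*b^(6:ℕ)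
        + ((115973:ℤ) + (58578:ℤ)*c^(1:ℕ) + (10445:ℤ)*c^(2:ℕ) + (743:ℤ)*c^(3:ℕ) + (16:ℤ)*c^(4:ℕ))*b^(7:ℕ)
        + ((21382:ℤ) + (8295:ℤ)*c^(1:ℕ) + (1003:ℤ)*c^(2:ℕ) + (36:ℤ)*c^(3:ℕ))*b^(8:ℕ)
        + ((2591:ℤ) + (684:ℤ)*c^(1:ℕ) + (42:ℤ)*c^(2:ℕ))*b^(9:ℕ)
        + ((186:ℤ) + (25:ℤ)*c^(1:ℕ))*b^(10:ℕ)
        + ((6:ℤ))*b^(11:ℕ))
      + (((513216:ℤ) + (493776:ℤ)*c^(1:ℕ) + (336312:ℤ)*c^(2:ℕ) + (143532:ℤ)*c^(3:ℕ) + (28998:ℤ)*c^(4:ℕ) + (2106:ℤ)*c^(5:ℕ))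
        + ((2064528:ℤ) + (1715256:ℤ)*c^(1:ℕ) + (880470:ℤ)*c^(2:ℕ) + (297459:ℤ)*c^(3:ℕ) + (50031:ℤ)*c^(4:ℕ) + (3024:ℤ)*c^(5:ℕ))*b^(1:ℕ)
        + ((3817044:ℤ) + (2874717:ℤ)*c^(1:ℕ) + (1151685:ℤ)*c^(2:ℕ) + (293292:ℤ)*c^(3:ℕ) + (38403:ℤ)*c^(4:ℕ) + (1800:ℤ)*c^(5:ℕ))*b^(2:ℕ)
        + ((4158891:ℤ) + (2863683:ℤ)*c^(1:ℕ) + (930429:ℤ)*c^(2:ℕ) + (176544:ℤ)*c^(3:ℕ) + (16911:ℤ)*c^(4:ℕ) + (558:ℤ)*c^(5:ℕ))*b^(3:ℕ)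
        + ((2923479:ℤ) + (1810995:ℤ)*c^(1:ℕ) + (482484:ℤ)*c^(2:ℕ) + (67902:ℤ)*c^(3:ℕ) + (4473:ℤ)*c^(4:ℕ) + (90:ℤ)*c^(5:ℕ))*b^(4:ℕ)
        + ((1380429:ℤ) + (745696:ℤ)*c^(1:ℕ) + (159649:ℤ)*c^(2:ℕ) + (16151:ℤ)*c^(3:ℕ) + (662:ℤ)*c^(4:ℕ) + (6:ℤ)*c^(5:ℕ))*b^(5:ℕ)
        + ((443381:ℤ) + (199519:ℤ)*c^(1:ℕ) + (32494:ℤ)*c^(2:ℕ) + (2150:ℤ)*c^(3:ℕ) + (42:ℤ)*c^(4:ℕ))*b^(6:ℕ)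
        + ((95773:ℤ) + (33495:ℤ)*c^(1:ℕ) + (3704:ℤ)*c^(2:ℕ) + (122:ℤ)*c^(3:ℕ))*b^(7:ℕ)
        + ((13337:ℤ) + (3209:ℤ)*c^(1:ℕ) + (181:ℤ)*c^(2:ℕ))*b^(8:ℕ)
        + ((1083:ℤ) + (134:ℤ)*c^(1:ℕ))*b^(9:ℕ)
        + ((39:ℤ))*b^(10:ℕ))*a^(1:ℕ)
      + (((544320:ℤ) + (689472:ℤ)*c^(1:ℕ) + (582066:ℤ)*c^(2:ℕ) + (230094:ℤ)*c^(3:ℕ) + (38340:ℤ)*c^(4:ℕ) + (2160:ℤ)*c^(5:ℕ))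
        + ((1732752:ℤ) + (1568160:ℤ)*c^(1:ℕ) + (1042011:ℤ)*c^(2:ℕ) + (352341:ℤ)*c^(3:ℕ) + (49500:ℤ)*c^(4:ℕ) + (2232:ℤ)*c^(5:ℕ))*b^(1:ℕ)
        + ((2682396:ℤ) + (1829736:ℤ)*c^(1:ℕ) + (867204:ℤ)*c^(2:ℕ) + (230265:ℤ)*c^(3:ℕ) + (25362:ℤ)*c^(4:ℕ) + (828:ℤ)*c^(5:ℕ))*b^(2:ℕ)
        + ((2516391:ℤ) + (1390737:ℤ)*c^(1:ℕ) + (451419:ℤ)*c^(2:ℕ) + (84549:ℤ)*c^(3:ℕ) + (6489:ℤ)*c^(4:ℕ) + (126:ℤ)*c^(5:ℕ))*b^(3:ℕ)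
        + ((1523184:ℤ) + (706707:ℤ)*c^(1:ℕ) + (158994:ℤ)*c^(2:ℕ) + (18957:ℤ)*c^(3:ℕ) + (840:ℤ)*c^(4:ℕ) + (6:ℤ)*c^(5:ℕ))*b^(4:ℕ)
        + ((606621:ℤ) + (233649:ℤ)*c^(1:ℕ) + (36568:ℤ)*c^(2:ℕ) + (2500:ℤ)*c^(3:ℕ) + (45:ℤ)*c^(4:ℕ))*b^(5:ℕ)
        + ((157932:ℤ) + (47797:ℤ)*c^(1:ℕ) + (4866:ℤ)*c^(2:ℕ) + (150:ℤ)*c^(3:ℕ))*b^(6:ℕ)
        + ((25881:ℤ) + (5474:ℤ)*c^(1:ℕ) + (280:ℤ)*c^(2:ℕ))*b^(7:ℕ)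
        + ((2424:ℤ) + (268:ℤ)*c^(1:ℕ))*b^(8:ℕ)
        + ((99:ℤ))*b^(9:ℕ))*a^(2:ℕ)
      + (((294840:ℤ) + (448740:ℤ)*c^(1:ℕ) + (380430:ℤ)*c^(2:ℕ) + (120738:ℤ)*c^(3:ℕ) + (13560:ℤ)*c^(4:ℕ) + (336:ℤ)*c^(5:ℕ))
        + ((716958:ℤ) + (719073:ℤ)*c^(1:ℕ) + (529857:ℤ)*c^(2:ℕ) + (145164:ℤ)*c^(3:ℕ) + (13044:ℤ)*c^(4:ℕ) + (216:ℤ)*c^(5:ℕ))*b^(1:ℕ)
        + ((896616:ℤ) + (556386:ℤ)*c^(1:ℕ) + (309735:ℤ)*c^(2:ℕ) + (67866:ℤ)*c^(3:ℕ) + (4398:ℤ)*c^(4:ℕ) + (36:ℤ)*c^(5:ℕ))*b^(2:ℕ)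
        + ((708339:ℤ) + (293374:ℤ)*c^(1:ℕ) + (102169:ℤ)*c^(2:ℕ) + (15476:ℤ)*c^(3:ℕ) + (578:ℤ)*c^(4:ℕ))*b^(3:ℕ)
        + ((361873:ℤ) + (112224:ℤ)*c^(1:ℕ) + (21559:ℤ)*c^(2:ℕ) + (1756:ℤ)*c^(3:ℕ) + (20:ℤ)*c^(4:ℕ))*b^(4:ℕ)
        + ((117758:ℤ) + (28323:ℤ)*c^(1:ℕ) + (2888:ℤ)*c^(2:ℕ) + (84:ℤ)*c^(3:ℕ))*b^(5:ℕ)
        + ((23452:ℤ) + (4038:ℤ)*c^(1:ℕ) + (186:ℤ)*c^(2:ℕ))*b^(6:ℕ)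
        + ((2601:ℤ) + (242:ℤ)*c^(1:ℕ))*b^(7:ℕ)
        + ((123:ℤ))*b^(8:ℕ))*a^(3:ℕ)
      + (((79272:ℤ) + (131904:ℤ)*c^(1:ℕ) + (101988:ℤ)*c^(2:ℕ) + (22320:ℤ)*c^(3:ℕ) + (1152:ℤ)*c^(4:ℕ))
        + ((142794:ℤ) + (152496:ℤ)*c^(1:ℕ) + (112200:ℤ)*c^(2:ℕ) + (20460:ℤ)*c^(3:ℕ) + (744:ℤ)*c^(4:ℕ))*b^(1:ℕ)
        + ((139584:ℤ) + (73604:ℤ)*c^(1:ℕ) + (47030:ℤ)*c^(2:ℕ) + (6466:ℤ)*c^(3:ℕ) + (124:ℤ)*c^(4:ℕ))*b^(2:ℕ)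
        + ((91474:ℤ) + (23015:ℤ)*c^(1:ℕ) + (9509:ℤ)*c^(2:ℕ) + (772:ℤ)*c^(3:ℕ))*b^(3:ℕ)
        + ((38654:ℤ) + (6081:ℤ)*c^(1:ℕ) + (1000:ℤ)*c^(2:ℕ) + (22:ℤ)*c^(3:ℕ))*b^(4:ℕ)
        + ((9775:ℤ) + (1129:ℤ)*c^(1:ℕ) + (53:ℤ)*c^(2:ℕ))*b^(5:ℕ)
        + ((1332:ℤ) + (91:ℤ)*c^(1:ℕ))*b^(6:ℕ)
        + ((75:ℤ))*b^(7:ℕ))*a^(4:ℕ)
      + (((8352:ℤ) + (14208:ℤ)*c^(1:ℕ) + (9408:ℤ)*c^(2:ℕ) + (960:ℤ)*c^(3:ℕ))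
        + ((10632:ℤ) + (11424:ℤ)*c^(1:ℕ) + (8040:ℤ)*c^(2:ℕ) + (624:ℤ)*c^(3:ℕ))*b^(1:ℕ)
        + ((7872:ℤ) + (2832:ℤ)*c^(1:ℕ) + (2324:ℤ)*c^(2:ℕ) + (104:ℤ)*c^(3:ℕ))*b^(2:ℕ)
        + ((4290:ℤ) + (248:ℤ)*c^(1:ℕ) + (252:ℤ)*c^(2:ℕ))*b^(3:ℕ)
        + ((1458:ℤ) + (40:ℤ)*c^(1:ℕ) + (8:ℤ)*c^(2:ℕ))*b^(4:ℕ)
        + ((258:ℤ) + (8:ℤ)*c^(1:ℕ))*b^(5:ℕ)
        + ((18:ℤ))*b^(6:ℕ))*a^(5:ℕ) := by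
    unfold G W T E pp p0 pm; ring
  rw [h]; positivity

theorem G_nonneg_le (n k l : ℤ) (hk : 0 ≤ k) (hkl : k ≤ l) (hl : l ≤ n + 1) : 0 ≤ G n k l := by
  obtain ⟨b, rfl⟩ : ∃ b, l = k + b := ⟨l - k, by ring⟩
  obtain ⟨c, rfl⟩ : ∃ c, n = k + b + c - 1 := ⟨n + 1 - k - b, by ring⟩
  have hb : 0 ≤ b := by omega
  have hc : 0 ≤ c := by omega
  by_cases h1 : b = 1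
  · subst h1
    have := r1 k c hk hc
    simpa using this
  by_cases h2 : c = 0
  · subst h2
    by_cases h3 : b = 0
    · subst h3; exact r2 k hk
    · have := r4 k (b - 1) hk (by omega)
      simpa using this
  by_cases h3 : b = 0
  · subst h3
    have := r3 k (c - 1) hk (by omega)
    simpa using this
  by_cases h4 : b = 2
  · subst h4
    by_cases h5 : c = 1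
    · subst h5; exact r5 k hk
    · have := r6 k (c - 2) hk (by omega)
      simpa using this
  have := r7 k (b - 3) (c - 1) hk (by omega) (by omega)
  simpa using this

theorem G_nonneg (n k l : ℤ) (hk : 0 ≤ k) (hl : 0 ≤ l) (hk' : k ≤ n + 1) (hl' : l ≤ n + 1) :
    0 ≤ G n k l := by
  rcases le_total k l with h | h
  · exact G_nonneg_le n k l hk h hl'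
  · rw [G_symm]; exact G_nonneg_le n l k hl h hk'

end Pool.Agent.H475Z.Ap
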