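import Pool.Agent.H475Z.Ap.Cert

set_option autoImplicit false

namespace Pool.Agent.H475Z.Ap

open Finset

/-- the coefficient -/
def a (m k : ℕ) : ℤ := ((m.choose k : ℤ)) ^ 2 * ((m + k).choose k : ℤ)

/-- the common weight -/
def β (n k : ℕ) : ℤ := (((n + 2).choose k : ℤ)) ^ 2 * ((n + k).choose k : ℤ)

theorem c1 (m k : ℕ) : (m.choose k : ℤ) * (m + 1) = ((m + 1).choose k : ℤ) * (m + 1 - k) := by
  rcases le_or_gt k (m + 1) with h | h
  · have := Nat.choose_mul_succ_eq m k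
    have h2 : ((m + 1 - k : ℕ) : ℤ) = (m : ℤ) + 1 - k := by omega
    rw [← h2]; exact_mod_cast this
  · rw [Nat.choose_eq_zero_of_lt h, Nat.choose_eq_zero_of_lt (by omega)]; simp

theorem c2 (m k : ℕ) :
    ((m + 1 + k).choose k : ℤ) * (m + 1) = ((m + k).choose k : ℤ) * (m + k + 1) := by
  have := c1 (m + k) k
  have e : m + 1 + k = m + k + 1 := by ring
  rw [e]; push_cast at this; linear_combination -this

theorem c3 (m k : ℕ) : (m.choose (k + 1) : ℤ) * (k + 1) = (m.choose k : ℤ) * (m - k) := by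
  rcases le_or_gt k m with h | h
  · have := Nat.choose_succ_right_eq m k
    have h2 : ((m - k : ℕ) : ℤ) = (m : ℤ) - k := by omega
    rw [← h2]; exact_mod_cast this
  · rw [Nat.choose_eq_zero_of_lt h, Nat.choose_eq_zero_of_lt (by omega)]; simp

theorem c4 (m k : ℕ) :
    ((m + (k + 1)).choose (k + 1) : ℤ) * (k + 1) = ((m + k).choose k : ℤ) * (m + k + 1) := by
  have := Nat.add_one_mul_choose_eq (m + k) k
  have e : m + (k + 1) = m + k + 1 := by ring
  rw [e]
  have h2 : (((m + k + 1) * (m + k).choose k : ℕ) : ℤ) = (((m + k + 1).choose (k + 1) * (k + 1) : ℕ) : ℤ) := by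
    rw [this]
  push_cast at h2; linear_combination -h2

theorem h2 (n k : ℕ) :
    ((n : ℤ) + 1) * (n + 2) * a (n + 2) k = β n k * pp (n + 1) k := by
  unfold a β pp
  have e1 := c2 n k
  have e2 := c2 (n + 1) k
  have e : n + 1 + 1 + k = n + 2 + k := by ring
  rw [e] at e2; push_cast at e2
  linear_combination ((n + 2).choose k : ℤ) ^ 2 * ((n + 1) * e2 + (n + k + 2) * e1)

theorem h1 (n k : ℕ) :
    ((n : ℤ) + 1) * (n + 2) ^ 2 * a (n + 1) k = β n k * p0 (n + 1) k := by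
  unfold a β p0
  have e1 := c2 n k
  have e2 := c1 (n + 1) k
  push_cast at e2
  have e3 : (((n + 1).choose k : ℤ) * (n + 2)) ^ 2 = (((n + 2).choose k : ℤ) * (n + 2 - k)) ^ 2 := by
    have : ((n + 1).choose k : ℤ) * (n + 2) = ((n + 2).choose k : ℤ) * (n + 2 - k) := by
      linear_combination e2
    rw [this]
  linear_combination (((n + 1).choose k : ℤ) * (n + 2)) ^ 2 * e1
    + ((n + k).choose k : ℤ) * (n + k + 1) * e3

theorem h0 (n k : ℕ) :
    ((n : ℤ) + 1) ^ 2 * (n + 2) ^ 2 * a n k = β n k * pm (n + 1) k := by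
  unfold a β pm
  have e1 := c1 n k
  have e2 := c1 (n + 1) k
  push_cast at e2
  have e3 : ((n.choose k : ℤ) * (n + 1) * (n + 2)) ^ 2
      = (((n + 2).choose k : ℤ) * (n + 2 - k) * (n + 1 - k)) ^ 2 := by
    have : (n.choose k : ℤ) * (n + 1) * (n + 2)
        = ((n + 2).choose k : ℤ) * (n + 2 - k) * (n + 1 - k) := by
      linear_combination (n + 2) * e1 + (n + 1 - k) * e2
    rw [this]
  linear_combination ((n + k).choose k : ℤ) * e3

theorem hβ (n k : ℕ) : β n (k + 1) * ((k : ℤ) + 1) ^ 3 = β n k * p0 (n + 1) k := by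
  unfold β p0
  have e1 := c3 (n + 2) k
  have e2 := c4 n k
  push_cast at e1
  have e3 : (((n + 2).choose (k + 1) : ℤ) * (k + 1)) ^ 2
      = (((n + 2).choose k : ℤ) * (n + 2 - k)) ^ 2 := by rw [e1]
  linear_combination (((n + 2).choose (k + 1) : ℤ) * (k + 1)) ^ 2 * e2
    + ((n + k).choose k : ℤ) * (n + k + 1) * e3

theorem β_nonneg (n k : ℕ) : 0 ≤ β n k := by unfold β; positivity

theorem β_zero (n k : ℕ) (h : n + 2 < k) : β n k = 0 := by
  unfold β; rw [Nat.choose_eq_zero_of_lt h]; simp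

theorem T_neg (n t x : ℤ) : T n t (-x) = -T n t x := by unfold T; ring

theorem sumW (n t : ℕ) :
    ∑ p ∈ antidiagonal t, β n p.1 * β n p.2 * W (n + 1) p.1 p.2 = 0 := by
  rcases t with _ | s
  · simp [W]
  rw [Finset.Nat.sum_antidiagonal_succ']
  have hz : β n (s + 1) * β n 0 * W (n + 1) ((s + 1 : ℕ) : ℤ) ((0 : ℕ) : ℤ) = 0 := by simp [W]
  rw [hz, zero_add]
  have key : ∀ p ∈ antidiagonal s, β n p.1 * β n (p.2 + 1) * W (n + 1) p.1 ((p.2 + 1 : ℕ) : ℤ)
      = β n p.1 * p0 (n + 1) p.1 * (β n p.2 * p0 (n + 1) p.2)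
        * T (n + 1) (s + 1) ((p.2 : ℤ) - p.1) := by
    intro p hp
    have hs : (p.1 : ℤ) + p.2 = s := by exact_mod_cast mem_antidiagonal.1 hp
    unfold W
    push_cast
    have e1 : (p.1 : ℤ) + (p.2 + 1) = s + 1 := by omega
    have e2 : (p.2 : ℤ) + 1 - p.1 - 1 = p.2 - p.1 := by ring
    rw [e1, e2, ← hβ n p.2]; ring
  rw [sum_congr rfl key]
  set f : ℕ × ℕ → ℤ := fun p => β n p.1 * p0 (n + 1) p.1 * (β n p.2 * p0 (n + 1) p.2)
        * T (n + 1) (s + 1) ((p.2 : ℤ) - p.1) with hf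
  have hsw : ∑ p ∈ antidiagonal s, f p.swap = ∑ p ∈ antidiagonal s, f p :=
    Finset.Nat.sum_antidiagonal_swap
  have hneg : ∀ p : ℕ × ℕ, f p.swap = -f p := by
    intro p
    simp only [hf, Prod.fst_swap, Prod.snd_swap]
    rw [show (p.1 : ℤ) - p.2 = -((p.2 : ℤ) - p.1) by ring, T_neg]; ring
  simp only [hneg, sum_neg_distrib] at hsw
  linarith

theorem sumE (n t : ℕ) :
    0 ≤ ∑ p ∈ antidiagonal t, β n p.1 * β n p.2 * E (n + 1) p.1 p.2 := by
  rcases Nat.eq_zero_or_pos t with rfl | ht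
  · simp only [Finset.Nat.antidiagonal_zero, sum_singleton]
    have : E ((n : ℤ) + 1) ((0 : ℕ) : ℤ) ((0 : ℕ) : ℤ) = 0 := by
      unfold E pp pm p0; push_cast; ring
    rw [this]; simp
  have hG : 0 ≤ ∑ p ∈ antidiagonal t, β n p.1 * β n p.2 * G (n + 1) p.1 p.2 := by
    apply sum_nonneg
    intro p _
    by_cases h1 : n + 2 < p.1
    · rw [β_zero n _ h1]; simp
    by_cases h2 : n + 2 < p.2
    · rw [β_zero n _ h2]; simp
    exact mul_nonneg (mul_nonneg (β_nonneg _ _) (β_nonneg _ _))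
      (G_nonneg _ _ _ (by positivity) (by positivity) (by omega) (by omega))
  have hW := sumW n t
  have hW' : ∑ p ∈ antidiagonal t, β n p.1 * β n p.2 * W (n + 1) p.2 p.1 = 0 := by
    rw [← hW, ← Finset.Nat.sum_antidiagonal_swap]
    apply sum_congr rfl
    intro p _
    simp only [Prod.fst_swap, Prod.snd_swap]; ring
  have hE' : ∑ p ∈ antidiagonal t, β n p.1 * β n p.2 * E (n + 1) p.2 p.1
      = ∑ p ∈ antidiagonal t, β n p.1 * β n p.2 * E (n + 1) p.1 p.2 := by
    rw [← Finset.Nat.sum_antidiagonal_swap]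
    apply sum_congr rfl
    intro p _
    simp only [Prod.fst_swap, Prod.snd_swap]; ring
  have hsum : ∑ p ∈ antidiagonal t, β n p.1 * β n p.2 * G (n + 1) p.1 p.2
      = (t : ℤ) ^ 4 * (∑ p ∈ antidiagonal t, β n p.1 * β n p.2 * E (n + 1) p.1 p.2
          + ∑ p ∈ antidiagonal t, β n p.1 * β n p.2 * E (n + 1) p.2 p.1)
        - (∑ p ∈ antidiagonal t, β n p.1 * β n p.2 * W (n + 1) p.1 p.2
          + ∑ p ∈ antidiagonal t, β n p.1 * β n p.2 * W (n + 1) p.2 p.1) := by
    rw [← sum_add_distrib, ← sum_add_distrib, mul_sum, ← sum_sub_distrib]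
    apply sum_congr rfl
    intro p hp
    have hs : (p.1 : ℤ) + p.2 = t := by exact_mod_cast mem_antidiagonal.1 hp
    unfold G; rw [hs]; ring
  rw [hsum, hW, hW', hE'] at hG
  have ht' : (0 : ℤ) < (t : ℤ) ^ 4 := by positivity
  by_contra hneg
  push Not at hneg
  nlinarith [mul_pos ht' (neg_pos.2 hneg)]

theorem conv_nonneg (n t : ℕ) :
    0 ≤ ∑ p ∈ antidiagonal t, (a (n + 2) p.1 * a n p.2 - a (n + 1) p.1 * a (n + 1) p.2) := by
  have h := sumE n t
  have e : ∑ p ∈ antidiagonal t, β n p.1 * β n p.2 * E (n + 1) p.1 p.2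
      = ((n : ℤ) + 1) ^ 3 * (n + 2) ^ 4 *
        ∑ p ∈ antidiagonal t, (a (n + 2) p.1 * a n p.2 - a (n + 1) p.1 * a (n + 1) p.2) := by
    rw [mul_sum]
    apply sum_congr rfl
    intro p _
    unfold E
    have e2 := h2 n p.1
    have e0 := h0 n p.2
    have e1 := h1 n p.1
    have e1' := h1 n p.2
    have : β n p.1 * β n p.2 * (((n : ℤ) + 1 + 1) * (pp (n + 1) p.1 * pm (n + 1) p.2)
        - (n + 1) * (p0 (n + 1) p.1 * p0 (n + 1) p.2))
        = (n + 2) * ((β n p.1 * pp (n + 1) p.1) * (β n p.2 * pm (n + 1) p.2))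
          - (n + 1) * ((β n p.1 * p0 (n + 1) p.1) * (β n p.2 * p0 (n + 1) p.2)) := by ring
    rw [this, ← e2, ← e0, ← e1, ← e1']; ring
  rw [e] at h
  have hp : (0 : ℤ) < ((n : ℤ) + 1) ^ 3 * (n + 2) ^ 4 := by positivity
  exact (mul_nonneg_iff_of_pos_left hp).1 h

theorem main (A : ℕ → Polynomial ℤ)
    (hA : ∀ n : ℕ, A n = ∑ k ∈ Finset.range (n + 1),
      Polynomial.monomial k (((n.choose k : ℤ)) ^ 2 * ((n + k).choose k : ℤ))) (n i : ℕ) :
    0 ≤ (A (n + 2) * A n - A (n + 1) ^ 2).coeff i := by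
  have hc : ∀ m k, (A m).coeff k = a m k := by
    intro m k
    rw [hA, Polynomial.finsetSum_coeff]
    simp only [Polynomial.coeff_monomial]
    rw [Finset.sum_ite_eq' (Finset.range (m + 1)) k]
    split_ifs with h
    · rfl
    · have : m < k := by simpa using h
      unfold a; rw [Nat.choose_eq_zero_of_lt this]; simp
  rw [sq, Polynomial.coeff_sub, Polynomial.coeff_mul, Polynomial.coeff_mul, ← sum_sub_distrib]
  simp only [hc]
  exact conv_nonneg n i

end Pool.Agent.H475Z.Ap
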